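import Pool.Agent.Helper76.TG.StG

/-!
# Project T3K, module TrT: transport of the Eichler potentials, twisted
-/

set_option autoImplicit false

namespace Pool.Agent.Helper87.TG

open Pool.Agent.Helper14.CV Pool.Agent.Helper28.WK Pool.Agent.Helper76.TG
open Polynomial (X C)

private theorem pr_phi (p a : ℕ) (s : ℤ) (I : ℤ → ℤ → ℕ → ℂ) (P : Polynomial ℤ) (x y : ℤ) :
    pr (PhiOfT p a s I) P x y = pr I (P.comp (C (p : ℤ) * X)) x (p * y) +
      (s * (-1 : ℤ) ^ a) • pr I (P.comp (C (-(p : ℤ)) * X)) (-x) (p * y) := by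
  induction P using Polynomial.induction_on' with
  | add P Q hP hQ =>
    rw [pr_add, Polynomial.add_comp, Polynomial.add_comp, pr_add, pr_add]
    simp only [Pi.add_apply, hP, hQ, smul_add]
    abel
  | monomial n c =>
    have h1 : (Polynomial.monomial n c : Polynomial ℤ) = C c * X ^ n :=
      (Polynomial.C_mul_X_pow_eq_monomial).symm
    have h2 : ∀ t : ℤ, (C c * X ^ n : Polynomial ℤ).comp (C t * X) = C c * (C (t ^ n) * X ^ n) := by
      intro t
      simp [Polynomial.mul_comp, mul_pow]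
    rw [h1, h2, h2]
    simp only [pr_C_mul, pr_X_pow, Pi.smul_apply, cp, PhiOfT, smul_add, smul_smul]
    congr 2
    rw [pow_add, neg_pow (p : ℤ) n]
    ring

section

variable {p a ν : ℕ} {w : ℤ} {I : ℤ → ℤ → ℕ → ℂ}

private theorem homog_pr (h : IDataT p a ν w I) (P : Polynomial ℤ) (hP : P.natDegree ≤ 2 * a) :
    Homog (pr I P) := by
  intro k x y hk hxy
  rw [pr_eq_sum I P (2 * a + 1) (by omega)]
  simp only [Finset.sum_apply, Pi.smul_apply]
  refine Finset.sum_congr rfl fun i hi => ?_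
  rw [Finset.mem_range] at hi
  rw [h.hom i (by omega) k x y hk hxy]

private theorem eqv' (h : IDataT p a ν w I) {α β γ δ : ℤ} (hd : α * δ - β * γ = 1)
    (hγ : (p : ℤ) ^ (ν + 2) ∣ γ) (F : Finset ℕ) (b : ℕ → ℤ) (e : ℕ → ℕ)
    (he : ∀ k ∈ F, e k ≤ 2 * a) :
    EqC (act α β γ δ (pr I (∑ k ∈ F, C (b k) * X ^ (e k))))
      (pr I (∑ k ∈ F, C (b k) *
        ((C α * X + C β) ^ e k * (C γ * X + C δ) ^ (2 * a - e k)))) := by
  rw [pr_sum, pr_sum]
  have h1 : act α β γ δ (∑ k ∈ F, pr I (C (b k) * X ^ (e k))) =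
      ∑ k ∈ F, b k • act α β γ δ (cp I (e k)) := by
    funext x y
    simp only [act, Finset.sum_apply, pr_C_mul, pr_X_pow, Pi.smul_apply]
  rw [h1]
  refine Pool.Agent.Helper28.WK.EqC.sum F fun k hk => ?_
  rw [pr_C_mul]
  exact (h.eqv α β γ δ hd hγ (e k) (he k hk)).smul (b k)

private theorem trans1 (h : IDataT p a ν w I) (P : Polynomial ℤ) (hP : P.natDegree ≤ 2 * a) :
    EqC (act 1 1 0 1 (pr I P)) (pr I (P.comp (X + 1))) := by
  have h1 := eqv' h (α := 1) (β := 1) (γ := 0) (δ := 1) (by norm_num) (dvd_zero _)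
    (Finset.range (2 * a + 1)) P.coeff id (fun k hk => by
      rw [Finset.mem_range] at hk
      simp only [id]
      omega)
  have h2 : ∑ k ∈ Finset.range (2 * a + 1), C (P.coeff k) * X ^ (id k) = P :=
    (P.as_sum_range_C_mul_X_pow' (by omega)).symm
  have h3 : ∑ k ∈ Finset.range (2 * a + 1), C (P.coeff k) *
      ((C (1 : ℤ) * X + C 1) ^ id k * (C (0 : ℤ) * X + C 1) ^ (2 * a - id k)) = P.comp (X + 1) := by
    rw [Polynomial.comp, Polynomial.eval₂_eq_sum_range' C (by omega : P.natDegree < 2 * a + 1)]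
    refine Finset.sum_congr rfl fun k _ => by simp
  rwa [h2, h3] at h1

private theorem trans2 (h : IDataT p a ν w I) (j : ℕ) (hj : j ≤ 2 * a) (s c : ℤ)
    (hc : (p : ℤ) ^ (ν + 2) ∣ c) :
    EqC (act 1 0 c 1 (pr I (X ^ j * (1 - C s * X) ^ (2 * a - j))))
      (pr I (X ^ j * (1 - C (s - c) * X) ^ (2 * a - j))) := by
  have h1 := eqv' h (α := 1) (β := 0) (γ := c) (δ := 1) (by norm_num) hc
    (Finset.range (2 * a - j + 1)) (fun k => (-s) ^ k * ((2 * a - j).choose k : ℤ)) (fun k => j + k)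
    (fun k hk => by
      rw [Finset.mem_range] at hk
      omega)
  have h2 : ∑ k ∈ Finset.range (2 * a - j + 1), C ((-s) ^ k * ((2 * a - j).choose k : ℤ)) * X ^ (j + k) =
      (X ^ j * (1 - C s * X) ^ (2 * a - j) : Polynomial ℤ) := by
    have e : (1 - C s * X : Polynomial ℤ) = C (-s) * X + 1 := by
      rw [Polynomial.C_neg]
      ring
    rw [e, add_pow, Finset.mul_sum]
    refine Finset.sum_congr rfl fun k _ => ?_
    rw [one_pow, mul_pow, Polynomial.C_mul, Polynomial.C_pow, pow_add, map_natCast]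
    ring
  have h3 : ∑ k ∈ Finset.range (2 * a - j + 1), C ((-s) ^ k * ((2 * a - j).choose k : ℤ)) *
      ((C (1 : ℤ) * X + C 0) ^ (j + k) * (C c * X + C 1) ^ (2 * a - (j + k))) =
      (X ^ j * (1 - C (s - c) * X) ^ (2 * a - j) : Polynomial ℤ) := by
    have e : (1 - C (s - c) * X : Polynomial ℤ) = C (-s) * X + (C c * X + 1) := by
      rw [Polynomial.C_neg, Polynomial.C_sub]
      ring
    rw [e, add_pow, Finset.mul_sum]
    refine Finset.sum_congr rfl fun k _ => ?_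
    rw [mul_pow, Polynomial.C_mul, Polynomial.C_pow, Nat.sub_add_eq, map_natCast]
    simp only [map_one, map_zero, one_mul, add_zero, pow_add]
    ring
  rwa [h2, h3] at h1

private theorem sum_neg_idx (p : ℕ) (T : ℤ → ℤ → ℤ → ℂ) (hT : ∀ i : ℤ, EqC (T (i + p)) (T i)) :
    EqC (∑ i ∈ Finset.range p, T (-(i : ℤ))) (∑ i ∈ Finset.range p, T (i : ℤ)) := by
  have h1 : ∑ i ∈ Finset.range p, T (-(i : ℤ)) = ∑ i ∈ Finset.range p, T ((i : ℤ) + 1 - p) := by
    rw [← Finset.sum_range_reflect]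
    refine Finset.sum_congr rfl fun i hi => ?_
    rw [Finset.mem_range] at hi
    congr 1
    omega
  have h2 : EqC (∑ i ∈ Finset.range p, T ((i : ℤ) + 1 - p)) (∑ i ∈ Finset.range p, T ((i : ℤ) + 1)) := by
    refine Pool.Agent.Helper28.WK.EqC.sum _ fun i _ => ?_
    have := (hT ((i : ℤ) + 1 - p)).symm
    rwa [sub_add_cancel] at this
  have h3 : ∑ i ∈ Finset.range p, T ((i : ℤ) + 1) = (∑ i ∈ Finset.range p, T (i : ℤ)) + (T p - T 0) := by
    have e1 := Finset.sum_range_succ (fun i : ℕ => T (i : ℤ)) p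
    have e2 := Finset.sum_range_succ' (fun i : ℕ => T (i : ℤ)) p
    rw [e1] at e2
    push_cast at e2
    rw [add_sub, e2]
    simp
  have h4 : EqC (T p - T 0) 0 := by
    have h5 := hT 0
    rw [zero_add] at h5
    have h6 := h5.sub (EqC.refl (T 0))
    rwa [sub_self] at h6
  rw [h1]
  refine h2.trans ?_
  rw [h3]
  have h5 := (EqC.refl (∑ i ∈ Finset.range p, T (i : ℤ))).add h4
  rwa [add_zero] at h5

private theorem ne_p {p : ℕ} (hp : p.Prime) : (p : ℤ) ≠ 0 := by exact_mod_cast hp.ne_zero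

private theorem ne_vec {p : ℕ} (hp : p.Prime) {x y : ℤ} (h : x ≠ 0 ∨ y ≠ 0) : x ≠ 0 ∨ (p : ℤ) * y ≠ 0 := by
  rcases h with h | h
  · exact Or.inl h
  · exact Or.inr (mul_ne_zero (ne_p hp) h)

private theorem ne_vec2 {p : ℕ} (hp : p.Prime) {x y : ℤ} (i : ℤ) (h : x ≠ 0 ∨ y ≠ 0) :
    x + i * y ≠ 0 ∨ (p : ℤ) * y ≠ 0 := by
  by_cases hy : y = 0
  · left
    subst hy
    simpa using h
  · exact Or.inr (mul_ne_zero (ne_p hp) hy)

private theorem deg_lin (u i : ℤ) (j : ℕ) : ((C u * X - C i) ^ j : Polynomial ℤ).natDegree ≤ j := by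
  refine (Polynomial.natDegree_pow_le).trans ?_
  have h1 : (C u * X - C i : Polynomial ℤ).natDegree ≤ 1 := by
    rw [sub_eq_add_neg, ← Polynomial.C_neg]
    exact Polynomial.natDegree_linear_le
  nlinarith

private theorem p_eqv (hp : p.Prime) (h : IDataT p a ν w I) (s : ℤ) : ∀ α β γ δ : ℤ, α * δ - β * γ = 1 → (p : ℤ) ∣ β →
    (p : ℤ) ^ (ν + 1) ∣ γ → ∀ i : ℕ, i ≤ 2 * a →
    EqC (act α β γ δ (cp (PhiOfT p a s I) i)) (pr (PhiOfT p a s I) ((C α * X + C β) ^ i *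
      (C γ * X + C δ) ^ (2 * a - i))) := by
  intro α β γ δ hd hβ hγ i hi
  obtain ⟨β', rfl⟩ := hβ
  have hγ' : (p : ℤ) ^ (ν + 2) ∣ p * γ := by
    obtain ⟨c, rfl⟩ := hγ
    exact ⟨c, by ring⟩
  have h1 := (h.eqv α β' (p * γ) δ (by linear_combination hd) hγ' i hi).act
    (a := 1) (b := 0) (c := 0) (d := (p : ℤ)) (by simpa using ne_p hp)
  have h2 := (h.eqv α (-β') (-(p * γ)) δ (by linear_combination hd) ((dvd_neg).2 hγ') i hi).act
    (a := -1) (b := 0) (c := 0) (d := (p : ℤ)) (by simpa using ne_p hp)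
  have h3 := (h1.smul ((p : ℤ) ^ i)).add (h2.smul (s * ((-1 : ℤ) ^ (a + i) * (p : ℤ) ^ i)))
  have e1 : ((p : ℤ) ^ i) • act 1 0 0 (p : ℤ) (act α β' (p * γ) δ (cp I i)) +
      (s * ((-1 : ℤ) ^ (a + i) * (p : ℤ) ^ i)) • act (-1) 0 0 (p : ℤ) (act α (-β') (-(p * γ)) δ (cp I i)) =
      act α (p * β') γ δ (cp (PhiOfT p a s I) i) := by
    funext x y
    simp only [Pi.add_apply, Pi.smul_apply, act, cp, PhiOfT]
    have a1 : α * (1 * x + 0 * y) + β' * (0 * x + p * y) = α * x + p * β' * y := by ring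
    have a2 : p * γ * (1 * x + 0 * y) + δ * (0 * x + p * y) = p * (γ * x + δ * y) := by ring
    have a3 : α * (-1 * x + 0 * y) + -β' * (0 * x + p * y) = -(α * x + p * β' * y) := by ring
    have a4 : -(p * γ) * (-1 * x + 0 * y) + δ * (0 * x + p * y) = p * (γ * x + δ * y) := by ring
    rw [a1, a2, a3, a4]
  have b1 : ((C α * X + C (p * β')) ^ i * (C γ * X + C δ) ^ (2 * a - i) : Polynomial ℤ).comp
      (C (p : ℤ) * X) = C ((p : ℤ) ^ i) * ((C α * X + C β') ^ i * (C (p * γ) * X + C δ) ^ (2 * a - i)) := by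
    have c1 : (C α * (C (p : ℤ) * X) + C (p * β') : Polynomial ℤ) = C (p : ℤ) * (C α * X + C β') := by
      rw [Polynomial.C_mul]
      ring
    have c2 : (C γ * (C (p : ℤ) * X) + C δ : Polynomial ℤ) = C (p * γ) * X + C δ := by
      rw [Polynomial.C_mul]
      ring
    rw [Polynomial.mul_comp, Polynomial.pow_comp, Polynomial.pow_comp, Polynomial.add_comp, Polynomial.add_comp,
      Polynomial.mul_comp, Polynomial.mul_comp, Polynomial.C_comp, Polynomial.C_comp, Polynomial.C_comp,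
      Polynomial.C_comp, Polynomial.X_comp, c1, c2, mul_pow, Polynomial.C_pow, mul_assoc]
  have b2 : ((C α * X + C (p * β')) ^ i * (C γ * X + C δ) ^ (2 * a - i) : Polynomial ℤ).comp
      (C (-(p : ℤ)) * X) = C ((-1) ^ i * (p : ℤ) ^ i) *
        ((C α * X + C (-β')) ^ i * (C (-(p * γ)) * X + C δ) ^ (2 * a - i)) := by
    have c1 : (C α * (C (-(p : ℤ)) * X) + C (p * β') : Polynomial ℤ) = C (-(p : ℤ)) * (C α * X + C (-β')) := by
      rw [Polynomial.C_mul, Polynomial.C_neg, Polynomial.C_neg]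
      ring
    have c2 : (C γ * (C (-(p : ℤ)) * X) + C δ : Polynomial ℤ) = C (-(p * γ)) * X + C δ := by
      rw [Polynomial.C_neg, Polynomial.C_neg, Polynomial.C_mul]
      ring
    rw [Polynomial.mul_comp, Polynomial.pow_comp, Polynomial.pow_comp, Polynomial.add_comp, Polynomial.add_comp,
      Polynomial.mul_comp, Polynomial.mul_comp, Polynomial.C_comp, Polynomial.C_comp, Polynomial.C_comp,
      Polynomial.C_comp, Polynomial.X_comp, c1, c2, mul_pow, ← Polynomial.C_pow, neg_pow, mul_assoc]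
  have e2 : ((p : ℤ) ^ i) • act 1 0 0 (p : ℤ) (pr I ((C α * X + C β') ^ i * (C (p * γ) * X + C δ) ^ (2 * a - i))) +
      (s * ((-1 : ℤ) ^ (a + i) * (p : ℤ) ^ i)) • act (-1) 0 0 (p : ℤ)
        (pr I ((C α * X + C (-β')) ^ i * (C (-(p * γ)) * X + C δ) ^ (2 * a - i))) =
      pr (PhiOfT p a s I) ((C α * X + C (p * β')) ^ i * (C γ * X + C δ) ^ (2 * a - i)) := by
    funext x y
    rw [pr_phi, b1, b2, pr_C_mul, pr_C_mul]
    simp only [Pi.add_apply, Pi.smul_apply, act, smul_smul]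
    have a1 : 1 * x + 0 * y = x := by ring
    have a2 : 0 * x + (p : ℤ) * y = p * y := by ring
    have a3 : -1 * x + 0 * y = -x := by ring
    rw [a1, a2, a3]
    congr 2
    rw [pow_add]
    ring
  rw [e1, e2] at h3
  exact h3

private theorem p_tt (hp : p.Prime) (h : IDataT p a ν w I) (s : ℤ) : ∀ j : ℕ, j ≤ 2 * a → EqC (fun x y => ∑ i ∈ Finset.range p,
    pr (PhiOfT p a s I) ((X - C (i : ℤ)) ^ j) (x + i * y) y) 0 := by
  intro j hj
  obtain ⟨c, hc⟩ := h.tt j hj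
  have hS : ∀ x y : ℤ, (x ≠ 0 ∨ y ≠ 0) → ∑ i ∈ Finset.range p,
      pr I ((C (p : ℤ) * X - C (i : ℤ)) ^ j) (x + i * y) (p * y) = c := by
    intro x y hxy
    have h1 := hc x (p * y) (ne_vec hp hxy)
    simp only [Pi.zero_apply, zero_add] at h1
    rw [← h1]
    refine Finset.sum_congr rfl fun i _ => ?_
    have h2 := homog_pr h ((C (p : ℤ) * X - C (i : ℤ)) ^ j) ((deg_lin _ _ _).trans hj) p (x + i * y) (p * y)
      (ne_p hp) (ne_vec2 hp i hxy)
    rw [← h2]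
    congr 1
    ring
  set T : ℤ → ℤ → ℤ → ℂ := fun i => act (-1) i 0 p (pr I ((C (p : ℤ) * X - C i) ^ j)) with hT
  have hper : ∀ i : ℤ, EqC (T (i + p)) (T i) := by
    intro i
    have h1 := trans1 h ((C (p : ℤ) * X - C (i + p)) ^ j) ((deg_lin _ _ _).trans hj)
    have h2 := h1.act (a := -1) (b := i) (c := 0) (d := (p : ℤ)) (by simpa using ne_p hp)
    rw [act_act] at h2
    have e1 : ((C (p : ℤ) * X - C (i + p)) ^ j : Polynomial ℤ).comp (X + 1) = (C (p : ℤ) * X - C i) ^ j := by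
      rw [Polynomial.pow_comp, Polynomial.sub_comp, Polynomial.mul_comp, Polynomial.C_comp, Polynomial.C_comp,
        Polynomial.X_comp, Polynomial.C_add]
      congr 1
      ring
    rw [e1] at h2
    have e2 : (1 : ℤ) * -1 + 1 * 0 = -1 := by norm_num
    have e3 : 1 * i + 1 * (p : ℤ) = i + p := by ring
    have e4 : (0 : ℤ) * -1 + 1 * 0 = 0 := by norm_num
    have e5 : 0 * i + 1 * (p : ℤ) = p := by ring
    rw [e2, e3, e4, e5] at h2
    exact h2
  have h0 : EqC (∑ i ∈ Finset.range p, T (i : ℤ)) 0 := by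
    refine ⟨c, fun x y hxy => ?_⟩
    simp only [Finset.sum_apply, Pi.zero_apply, zero_add]
    rw [← hS (-x) y (by simpa using hxy)]
    refine Finset.sum_congr rfl fun i _ => ?_
    simp only [hT, act]
    congr 1 <;> ring
  have h1 : EqC (∑ i ∈ Finset.range p, T (-(i : ℤ))) 0 := (sum_neg_idx p T hper).trans h0
  obtain ⟨c', hc'⟩ := h1
  refine ⟨c + (s * (-1 : ℤ) ^ (a + j)) • c', fun x y hxy => ?_⟩
  have h2 := hS x y hxy
  have h3 := hc' x y hxy
  simp only [Pi.zero_apply, zero_add] at h3 ⊢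
  rw [← h2, ← h3, Finset.sum_apply, Finset.sum_apply, Finset.smul_sum, ← Finset.sum_add_distrib]
  refine Finset.sum_congr rfl fun i _ => ?_
  rw [pr_phi]
  have e1 : ((X - C (i : ℤ)) ^ j : Polynomial ℤ).comp (C (p : ℤ) * X) = (C (p : ℤ) * X - C (i : ℤ)) ^ j := by
    rw [Polynomial.pow_comp, Polynomial.sub_comp, Polynomial.C_comp, Polynomial.X_comp]
  have e2 : ((X - C (i : ℤ)) ^ j : Polynomial ℤ).comp (C (-(p : ℤ)) * X) =
      C ((-1) ^ j) * (C (p : ℤ) * X - C (-(i : ℤ))) ^ j := by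
    rw [Polynomial.pow_comp, Polynomial.sub_comp, Polynomial.C_comp, Polynomial.X_comp, Polynomial.C_pow, ← mul_pow]
    congr 1
    simp only [Polynomial.C_neg, map_one]
    ring
  rw [e1, e2, pr_C_mul]
  have e3 : s * (-1 : ℤ) ^ a * (-1) ^ j = s * (-1) ^ (a + j) := by
    rw [pow_add]
    ring
  simp only [Pi.smul_apply, hT, act, smul_smul, e3]
  congr 3 <;> ring

private theorem p_ss (hp : p.Prime) (h : IDataT p a ν w I) (s : ℤ) : ∀ j : ℕ, j ≤ 2 * a → EqC (fun x y => ∑ i ∈ Finset.range p,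
    pr (PhiOfT p a s I) (X ^ j * (1 - C ((p : ℤ) ^ ν * i) * X) ^ (2 * a - j))
      x ((p : ℤ) ^ ν * i * x + y)) 0 := by
  intro j hj
  set T : ℤ → ℤ → ℤ → ℂ := fun i => act 1 0 ((p : ℤ) ^ (ν + 1) * i) 1
    (pr I (X ^ j * (1 - C ((p : ℤ) ^ (ν + 1) * i) * X) ^ (2 * a - j))) with hT
  have h0 : EqC (∑ i ∈ Finset.range p, T (i : ℤ)) 0 := by
    obtain ⟨c, hc⟩ := h.ss j hj
    refine ⟨c, fun x y hxy => ?_⟩
    rw [← hc x y hxy, Finset.sum_apply, Finset.sum_apply]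
    refine Finset.sum_congr rfl fun i _ => ?_
    simp only [hT, act]
    congr 1 <;> ring
  have hper : ∀ i : ℤ, EqC (T (i + p)) (T i) := by
    intro i
    have h1 := trans2 h j hj ((p : ℤ) ^ (ν + 1) * (i + p)) ((p : ℤ) ^ (ν + 2)) (dvd_refl _)
    have h2 := h1.act (a := 1) (b := 0) (c := (p : ℤ) ^ (ν + 1) * i) (d := 1) (by norm_num)
    rw [act_act] at h2
    have e1 : (p : ℤ) ^ (ν + 1) * (i + p) - (p : ℤ) ^ (ν + 2) = (p : ℤ) ^ (ν + 1) * i := by ring
    have e2 : (1 : ℤ) * 1 + 0 * ((p : ℤ) ^ (ν + 1) * i) = 1 := by ring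
    have e3 : (1 : ℤ) * 0 + 0 * 1 = 0 := by norm_num
    have e4 : (p : ℤ) ^ (ν + 2) * 1 + 1 * ((p : ℤ) ^ (ν + 1) * i) = (p : ℤ) ^ (ν + 1) * (i + p) := by ring
    have e5 : (p : ℤ) ^ (ν + 2) * 0 + 1 * 1 = 1 := by ring
    rw [e1, e2, e3, e4, e5] at h2
    exact h2
  have h1 : EqC (∑ i ∈ Finset.range p, T (-(i : ℤ))) 0 := (sum_neg_idx p T hper).trans h0
  obtain ⟨c, hc⟩ := h0
  obtain ⟨c', hc'⟩ := h1
  refine ⟨((p : ℤ) ^ j) • c + (s * (-1 : ℤ) ^ a * (-(p : ℤ)) ^ j) • c', fun x y hxy => ?_⟩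
  have h2 := hc x (p * y) (ne_vec hp hxy)
  have h3 := hc' (-x) (p * y) (ne_vec hp (by simpa using hxy))
  simp only [Pi.zero_apply, zero_add] at h2 h3 ⊢
  rw [← h2, ← h3, Finset.sum_apply, Finset.sum_apply, Finset.sum_apply, Finset.sum_apply, Finset.smul_sum,
    Finset.smul_sum, ← Finset.sum_add_distrib]
  refine Finset.sum_congr rfl fun i _ => ?_
  rw [pr_phi]
  have e0 : ∀ t : ℤ, (X ^ j * (1 - C ((p : ℤ) ^ ν * i) * X) ^ (2 * a - j) : Polynomial ℤ).comp (C t * X) =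
      C (t ^ j) * (X ^ j * (1 - C ((p : ℤ) ^ ν * i * t) * X) ^ (2 * a - j)) := by
    intro t
    rw [Polynomial.mul_comp, Polynomial.pow_comp, Polynomial.pow_comp, Polynomial.sub_comp, Polynomial.mul_comp,
      Polynomial.C_comp, Polynomial.X_comp, Polynomial.one_comp, mul_pow, Polynomial.C_pow,
      Polynomial.C_mul (a := (p : ℤ) ^ ν * i)]
    ring
  rw [e0, e0, pr_C_mul, pr_C_mul]
  simp only [Pi.smul_apply, hT, act, smul_smul]
  have a1 : (p : ℤ) ^ ν * i * p = (p : ℤ) ^ (ν + 1) * i := by ring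
  have a2 : (p : ℤ) ^ ν * i * -p = (p : ℤ) ^ (ν + 1) * -i := by ring
  have a3 : p * ((p : ℤ) ^ ν * i * x + y) = (p : ℤ) ^ (ν + 1) * i * x + 1 * (p * y) := by ring
  have a4 : (p : ℤ) ^ (ν + 1) * i * x + 1 * (p * y) = (p : ℤ) ^ (ν + 1) * -i * -x + 1 * (p * y) := by ring
  have a5 : 1 * x + 0 * (p * y) = x := by ring
  have a6 : 1 * -x + 0 * (p * y) = -x := by ring
  rw [a1, a2, a3, a5, a6]
  congr 2
  rw [a4]

private theorem p_fr (hp : p.Prime) (h : IDataT p a ν w I) (s : ℤ) :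
    EqC (act 0 (-1) ((p : ℤ) ^ ν) 0 (cp (PhiOfT p a s I) a)) (-(w • cp (PhiOfT p a s I) a)) := by
  obtain ⟨c, hc⟩ := h.fr
  have hH := h.hom a (by omega)
  refine ⟨((1 + s) * (p : ℤ) ^ a) • c, fun x y hxy => ?_⟩
  have hn1 : x ≠ 0 ∨ (p : ℤ) * y ≠ 0 := ne_vec hp hxy
  have hn2 : -x ≠ 0 ∨ (p : ℤ) * y ≠ 0 := ne_vec hp (by simpa using hxy)
  have hp1 : (p : ℤ) ^ (ν + 1) ≠ 0 := pow_ne_zero _ (ne_p hp)
  have h1 := hc x (p * y) hn1
  have h2 := hc (-x) (p * y) hn2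
  have hv1 : -y ≠ 0 ∨ (p : ℤ) ^ (ν + 1) * x ≠ 0 := by
    rcases hxy with hx | hy
    · exact Or.inr (mul_ne_zero hp1 hx)
    · exact Or.inl (neg_ne_zero.2 hy)
  have hv2 : y ≠ 0 ∨ (p : ℤ) ^ (ν + 1) * x ≠ 0 := by
    rcases hxy with hx | hy
    · exact Or.inr (mul_ne_zero hp1 hx)
    · exact Or.inl hy
  have h3 := hH p (-y) ((p : ℤ) ^ (ν + 1) * x) (ne_p hp) hv1
  have h4 := hH (-p) y ((p : ℤ) ^ (ν + 1) * x) (neg_ne_zero.2 (ne_p hp)) hv2
  simp only [act, cp, Pi.neg_apply, Pi.smul_apply] at h1 h2 h3 h4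
  have e1 : (0 : ℤ) * x + -1 * (p * y) = p * -y := by ring
  have e2 : (p : ℤ) ^ (ν + 2) * x + 0 * (p * y) = p * ((p : ℤ) ^ (ν + 1) * x) := by ring
  have e3 : (0 : ℤ) * -x + -1 * (p * y) = -p * y := by ring
  have e4 : (p : ℤ) ^ (ν + 2) * -x + 0 * (p * y) = -p * ((p : ℤ) ^ (ν + 1) * x) := by ring
  rw [e1, e2, h3] at h1
  rw [e3, e4, h4] at h2
  simp only [act, cp, Pi.neg_apply, Pi.smul_apply, PhiOfT]
  have e5 : (0 : ℤ) * x + -1 * y = -y := by ring
  have e6 : (p : ℤ) * ((p : ℤ) ^ ν * x + 0 * y) = (p : ℤ) ^ (ν + 1) * x := by ring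
  have e7 : (-1 : ℤ) ^ (a + a) = 1 := Even.neg_one_pow ⟨a, rfl⟩
  rw [e5, e6, neg_neg, h1, h2, e7, one_mul]
  simp only [zsmul_eq_mul]
  push_cast
  ring

private theorem p_st (_h : IDataT p a ν w I) (s : ℤ) (hs : s * s = 1) :
    EqC (act (-1) 0 0 1 (cp (PhiOfT p a s I) a)) (s • cp (PhiOfT p a s I) a) := by
  refine EqC.of_eq fun x y _ => ?_
  simp only [act, cp, PhiOfT, Pi.smul_apply]
  have e1 : -1 * x + 0 * y = -x := by ring
  have e2 : 0 * x + 1 * y = y := by ring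
  have e7 : (-1 : ℤ) ^ (a + a) = 1 := Even.neg_one_pow ⟨a, rfl⟩
  rw [e1, e2, neg_neg, e7, one_mul, smul_add, smul_smul, smul_smul, ← mul_assoc, hs, one_mul, add_comm]

/-- the Hecke operators multiply the symmetrised potentials by constants -/
private theorem hecke (hp : p.Prime) (h : IDataT p a ν w I) (s : ℤ) : ∃ lam : ℕ → ℂ, ∀ (M : ℕ), 1 ≤ M → ∀ l : ℕ, l.Prime → l ≠ p →
    ∀ i : ℕ, i ≤ 2 * a → ∀ x y : ℤ, (x ≠ 0 ∨ y ≠ 0) →
    WT a l ((p : ℤ) ^ M) (PhiOfT p a s I) x y i = lam l * PhiOfT p a s I x y i := by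
  obtain ⟨lam, hlam⟩ := h.hk
  refine ⟨lam, fun M hM l hl hlp i hi x y hxy => ?_⟩
  obtain ⟨K, rfl⟩ : ∃ K, M = K + 1 := ⟨M - 1, by omega⟩
  have hcop : IsCoprime ((p : ℤ) ^ K) (l : ℤ) := by
    refine IsCoprime.pow_left ?_
    rw [Nat.isCoprime_iff_coprime]
    exact (Nat.coprime_primes hp hl).2 (Ne.symm hlp)
  have hcop' : IsCoprime (-(p : ℤ) ^ K) (l : ℤ) := hcop.neg_left
  have h1 := hlam l ((p : ℤ) ^ K) hl hlp hcop i hi x (p * y) (ne_vec hp hxy)
  have h2 := hlam l (-(p : ℤ) ^ K) hl hlp hcop' i hi (-x) (p * y) (ne_vec hp (by simpa using hxy))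
  have e1 : ∀ j : ℕ, ((C (l : ℤ) * X - C ((p : ℤ) ^ (K + 1) * j)) ^ i : Polynomial ℤ).comp (C (p : ℤ) * X) =
      C ((p : ℤ) ^ i) * (C (l : ℤ) * X - C ((p : ℤ) ^ K * j)) ^ i := by
    intro j
    rw [Polynomial.pow_comp, Polynomial.sub_comp, Polynomial.mul_comp, Polynomial.C_comp, Polynomial.X_comp,
      Polynomial.C_comp, Polynomial.C_pow, ← mul_pow]
    congr 1
    have : (p : ℤ) ^ (K + 1) * j = p * ((p : ℤ) ^ K * j) := by ring
    rw [this, Polynomial.C_mul (a := (p : ℤ))]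
    ring
  have e2 : ∀ j : ℕ, ((C (l : ℤ) * X - C ((p : ℤ) ^ (K + 1) * j)) ^ i : Polynomial ℤ).comp (C (-(p : ℤ)) * X) =
      C ((-1) ^ i * (p : ℤ) ^ i) * (C (l : ℤ) * X - C (-(p : ℤ) ^ K * j)) ^ i := by
    intro j
    rw [← mul_pow, Polynomial.pow_comp, Polynomial.sub_comp, Polynomial.mul_comp, Polynomial.C_comp, Polynomial.X_comp,
      Polynomial.C_comp, Polynomial.C_pow, ← mul_pow]
    congr 1
    have e3 : (p : ℤ) ^ (K + 1) * j = (-1 * p) * (-(p : ℤ) ^ K * j) := by ring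
    have e4 : (-(p : ℤ)) = -1 * p := by ring
    rw [e3, e4, Polynomial.C_mul (a := (-1 * (p : ℤ)))]
    ring
  have key : WT a l ((p : ℤ) ^ (K + 1)) (PhiOfT p a s I) x y i =
      ((p : ℤ) ^ i) • ((∑ j ∈ Finset.range l, pr I ((C (l : ℤ) * X - C ((p : ℤ) ^ K * j)) ^ i)
        (x + (p : ℤ) ^ K * j * (p * y)) (l * (p * y))) + ((l : ℤ) ^ (2 * a - i)) • I (l * x) (p * y) i) +
      (s * ((-1 : ℤ) ^ (a + i) * (p : ℤ) ^ i)) • ((∑ j ∈ Finset.range l, pr I ((C (l : ℤ) * X - C (-(p : ℤ) ^ K * j)) ^ i)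
        (-x + -(p : ℤ) ^ K * j * (p * y)) (l * (p * y))) + ((l : ℤ) ^ (2 * a - i)) • I (l * -x) (p * y) i) := by
    simp only [WT]
    have h3 : ∀ j ∈ Finset.range l, pr (PhiOfT p a s I) ((C (l : ℤ) * X - C ((p : ℤ) ^ (K + 1) * j)) ^ i)
        (x + (p : ℤ) ^ (K + 1) * j * y) (l * y) =
        ((p : ℤ) ^ i) • pr I ((C (l : ℤ) * X - C ((p : ℤ) ^ K * j)) ^ i)
          (x + (p : ℤ) ^ K * j * (p * y)) (l * (p * y)) +
        (s * ((-1 : ℤ) ^ (a + i) * (p : ℤ) ^ i)) • pr I ((C (l : ℤ) * X - C (-(p : ℤ) ^ K * j)) ^ i)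
          (-x + -(p : ℤ) ^ K * j * (p * y)) (l * (p * y)) := by
      intro j _
      rw [pr_phi, e1, e2, pr_C_mul, pr_C_mul]
      simp only [Pi.smul_apply, smul_smul]
      have a1 : x + (p : ℤ) ^ (K + 1) * j * y = x + (p : ℤ) ^ K * j * (p * y) := by ring
      have a2 : (p : ℤ) * (l * y) = l * (p * y) := by ring
      have a3 : -(x + (p : ℤ) ^ K * j * (p * y)) = -x + -(p : ℤ) ^ K * j * (p * y) := by ring
      have a4 : s * (-1 : ℤ) ^ a * ((-1) ^ i * (p : ℤ) ^ i) = s * ((-1) ^ (a + i) * (p : ℤ) ^ i) := by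
        rw [pow_add]
        ring
      rw [a1, a2, a3, a4]
    rw [Finset.sum_congr rfl h3, Finset.sum_add_distrib, ← Finset.smul_sum, ← Finset.smul_sum]
    simp only [PhiOfT, smul_add]
    have a5 : -((l : ℤ) * x) = l * -x := by ring
    rw [a5, smul_comm ((l : ℤ) ^ (2 * a - i)) ((p : ℤ) ^ i),
      smul_comm ((l : ℤ) ^ (2 * a - i)) (s * ((-1 : ℤ) ^ (a + i) * (p : ℤ) ^ i))]
    abel
  rw [key, h1, h2]
  simp only [PhiOfT, zsmul_eq_mul]
  ring

/-- words -/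
private theorem words (hp : p.Prime) (h : IDataT p a ν w I) (s : ℤ) (M : ℕ) (hM : 1 ≤ M) : ∀ ls : List ℕ, Ok p ls → ∃ c : ℂ,
    ∀ i : ℕ, i ≤ 2 * a → ∀ x y : ℤ, (x ≠ 0 ∨ y ≠ 0) →
      WTw a ((p : ℤ) ^ M) ls (PhiOfT p a s I) x y i = c * PhiOfT p a s I x y i := by
  obtain ⟨lam, hlam⟩ := hecke hp h s
  intro ls
  induction ls with
  | nil =>
    intro _
    exact ⟨1, fun i _ x y _ => by simp [WTw]⟩
  | cons l ls ih =>
    intro hok
    obtain ⟨c, hc⟩ := ih (fun k hk => hok k (List.mem_cons_of_mem _ hk))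
    obtain ⟨hl, hlp⟩ := hok l List.mem_cons_self
    refine ⟨c * lam l, fun i hi x y hxy => ?_⟩
    have hl0 : (l : ℤ) ≠ 0 := by exact_mod_cast hl.ne_zero
    have hpr : ∀ (P : Polynomial ℤ), P.natDegree ≤ 2 * a → ∀ u v : ℤ, (u ≠ 0 ∨ v ≠ 0) →
        pr (WTw a ((p : ℤ) ^ M) ls (PhiOfT p a s I)) P u v = c * pr (PhiOfT p a s I) P u v := by
      intro P hP u v huv
      rw [pr_eq_sum _ P (2 * a + 1) (by omega), pr_eq_sum _ P (2 * a + 1) (by omega)]
      simp only [Finset.sum_apply, Pi.smul_apply, cp, Finset.mul_sum]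
      refine Finset.sum_congr rfl fun k hk => ?_
      rw [Finset.mem_range] at hk
      rw [hc k (by omega) u v huv, mul_smul_comm]
    have h1 := hlam M hM l hl hlp i hi x y hxy
    have hgoal : WTw a ((p : ℤ) ^ M) (l :: ls) (PhiOfT p a s I) x y i =
        c * WT a l ((p : ℤ) ^ M) (PhiOfT p a s I) x y i := by
      simp only [WTw, WT]
      rw [mul_add, Finset.mul_sum]
      congr 1
      · refine Finset.sum_congr rfl fun j _ => ?_
        refine hpr _ ((deg_lin _ _ _).trans hi) _ _ ?_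
        by_cases hy : y = 0
        · left
          subst hy
          simpa using hxy
        · exact Or.inr (mul_ne_zero hl0 hy)
      · rw [hc i hi (l * x) y, mul_smul_comm]
        rcases hxy with hx | hy
        · exact Or.inl (mul_ne_zero hl0 hx)
        · exact Or.inr hy
    rw [hgoal, h1]
    ring

/-- the value at the cusp infinity -/
private theorem inf_pr (h : IDataT p a ν w I) (P : Polynomial ℤ) (hP : P.natDegree ≤ 2 * a) :
    pr I P 1 0 = 0 := by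
  rw [pr_eq_sum I P (2 * a + 1) (by omega)]
  simp only [Finset.sum_apply, Pi.smul_apply, cp]
  refine Finset.sum_eq_zero fun i hi => ?_
  rw [Finset.mem_range] at hi
  rw [h.inf i (by omega), smul_zero]

private theorem inf_pr2 (h : IDataT p a ν w I) (P : Polynomial ℤ) (hP : P.natDegree ≤ 2 * a) :
    pr I P (-1) 0 = 0 := by
  have h1 := homog_pr h P hP (-1) 1 0 (by norm_num) (Or.inl one_ne_zero)
  simp only [mul_one, mul_zero] at h1
  rw [h1, inf_pr h P hP]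

/-- the potential at a cusp, translated -/
private theorem fper (h : IDataT p a ν w I) (D : ℕ) (hD : D ≠ 0) (v : ℤ) :
    pr I ((C (D : ℤ) * X - C (v + D)) ^ a) (v + D) D = pr I ((C (D : ℤ) * X - C v) ^ a) v D := by
  have hdeg : ((C (D : ℤ) * X - C (v + D)) ^ a : Polynomial ℤ).natDegree ≤ 2 * a :=
    (deg_lin _ _ _).trans (by omega)
  obtain ⟨k, hk⟩ := trans1 h ((C (D : ℤ) * X - C (v + D)) ^ a) hdeg
  have e1 : ((C (D : ℤ) * X - C (v + D)) ^ a : Polynomial ℤ).comp (X + 1) = (C (D : ℤ) * X - C v) ^ a := by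
    rw [Polynomial.pow_comp, Polynomial.sub_comp, Polynomial.mul_comp, Polynomial.C_comp, Polynomial.C_comp,
      Polynomial.X_comp, Polynomial.C_add]
    congr 1
    ring
  rw [e1] at hk
  have h1 := hk 1 0 (Or.inl one_ne_zero)
  have h2 := hk v D (Or.inr (by exact_mod_cast hD))
  simp only [act] at h1 h2
  have a1 : (1 : ℤ) * 1 + 1 * 0 = 1 := by norm_num
  have a2 : (0 : ℤ) * 1 + 1 * 0 = 0 := by norm_num
  have a3 : (1 : ℤ) * v + 1 * D = v + D := by ring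
  have a4 : (0 : ℤ) * v + 1 * D = D := by ring
  rw [a1, a2, inf_pr h _ hdeg, inf_pr h _ ((deg_lin _ _ _).trans (by omega)), zero_add] at h1
  rw [a3, a4, ← h1, add_zero] at h2
  exact h2

/-- the twisted sum of a periodic function, the variable multiplied by a unit -/
private theorem tsum (D : ℕ) (hD : D ≠ 0) (f : ℤ → ℂ) (hf : ∀ v : ℤ, f (v + D) = f v) (t : ℤ)
    (ht : IsCoprime t (D : ℤ)) :
    ∑ b ∈ Finset.range D, (jacobiSym (b : ℤ) D : ℂ) * f (t * b) =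
      (jacobiSym t D : ℂ) * ∑ b ∈ Finset.range D, (jacobiSym (b : ℤ) D : ℂ) * f b := by
  have hD0 : (D : ℤ) ≠ 0 := by exact_mod_cast hD
  have hDp : (0 : ℤ) < D := by positivity
  have hf' : ∀ u v : ℤ, u % D = v % D → f u = f v := by
    have hP : Function.Periodic f (D : ℤ) := hf
    have h1 : ∀ v : ℤ, f (v % D) = f v := by
      intro v
      have h2 := hP.int_mul (v / D) (v % D)
      have h3 : v % D + v / D * D = v := by
        rw [mul_comm]
        exact Int.emod_add_mul_ediv v D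
      simp only [Int.cast_id] at h2
      rw [h3] at h2
      exact h2.symm
    intro u v huv
    rw [← h1 u, ← h1 v, huv]
  obtain ⟨u, v, huv⟩ := ht
  have hmod : ∀ i : ℤ, u * (t * i) % D = i % D := by
    intro i
    have : u * (t * i) = i + D * (-(v * i)) := by linear_combination i * huv
    rw [this, Int.add_mul_emod_self_left]
  have hmod' : ∀ i : ℤ, t * (u * i) % D = i % D := by
    intro i
    rw [← hmod i]
    congr 1
    ring
  have hchi : (jacobiSym t D : ℂ) * (jacobiSym t D : ℂ) = 1 := by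
    have h1 : jacobiSym t D ^ 2 = 1 := jacobiSym.sq_one (Int.isCoprime_iff_gcd_eq_one.1 ⟨u, v, huv⟩)
    rw [← pow_two]
    exact_mod_cast h1
  rw [Finset.mul_sum]
  refine Finset.sum_nbij' (fun b => ((t * (b : ℤ)) % D).toNat) (fun b => ((u * (b : ℤ)) % D).toNat) ?_ ?_ ?_ ?_ ?_
  · intro b _
    rw [Finset.mem_range]
    have := Int.emod_lt_of_pos (t * (b : ℤ)) hDp
    omega
  · intro b _
    rw [Finset.mem_range]
    have := Int.emod_lt_of_pos (u * (b : ℤ)) hDp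
    omega
  · intro b hb
    rw [Finset.mem_range] at hb
    have h1 : (((t * (b : ℤ)) % D).toNat : ℤ) = (t * (b : ℤ)) % D := Int.toNat_of_nonneg (Int.emod_nonneg _ hD0)
    simp only [h1]
    rw [Int.mul_emod, Int.emod_emod_of_dvd _ (dvd_refl _), ← Int.mul_emod, hmod, Int.emod_eq_of_lt (by positivity) (by exact_mod_cast hb)]
    simp
  · intro b hb
    rw [Finset.mem_range] at hb
    have h1 : (((u * (b : ℤ)) % D).toNat : ℤ) = (u * (b : ℤ)) % D := Int.toNat_of_nonneg (Int.emod_nonneg _ hD0)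
    simp only [h1]
    rw [Int.mul_emod, Int.emod_emod_of_dvd _ (dvd_refl _), ← Int.mul_emod, hmod', Int.emod_eq_of_lt (by positivity) (by exact_mod_cast hb)]
    simp
  · intro b _
    have h1 : (((t * (b : ℤ)) % D).toNat : ℤ) = (t * (b : ℤ)) % D := Int.toNat_of_nonneg (Int.emod_nonneg _ hD0)
    simp only [h1]
    have h2 : f ((t * (b : ℤ)) % D) = f (t * b) := hf' _ _ (Int.emod_emod_of_dvd _ (dvd_refl _))
    rw [h2, ← jacobiSym.mod_left, jacobiSym.mul_left]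
    push_cast
    linear_combination (-(jacobiSym (b : ℤ) D : ℂ) * f (t * b)) * hchi

/-- the twisted period vanishes -/
private theorem eW0 (hp : p.Prime) (h : IDataT p a ν w I) (s : ℤ) (D : ℕ) (hD : D ≠ 0) (hpD : Nat.Coprime p D)
    (h0 : eI a D I = 0) (M : ℕ) (hM : 1 ≤ M) : eW a D ((p : ℤ) ^ M) (PhiOfT p a s I) = 0 := by
  obtain ⟨K, rfl⟩ : ∃ K, M = K + 1 := ⟨M - 1, by omega⟩
  have hD0 : (D : ℤ) ≠ 0 := by exact_mod_cast hD
  set f : ℤ → ℂ := fun v => pr I ((C (D : ℤ) * X - C v) ^ a) v D with hf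
  have hcop : IsCoprime ((p : ℤ) ^ K) (D : ℤ) := by
    refine IsCoprime.pow_left ?_
    rw [Nat.isCoprime_iff_coprime]
    exact hpD
  have hcop' : IsCoprime (-(p : ℤ) ^ K) (D : ℤ) := hcop.neg_left
  have hs0 : ∑ b ∈ Finset.range D, (jacobiSym (b : ℤ) D : ℂ) * f b = 0 := h0
  have hs1 := tsum D hD f (fper h D hD) _ hcop
  have hs2 := tsum D hD f (fper h D hD) _ hcop'
  rw [hs0, mul_zero] at hs1 hs2
  have hdeg : ∀ v : ℤ, ((C (D : ℤ) * X - C v) ^ a : Polynomial ℤ).natDegree ≤ 2 * a :=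
    fun v => (deg_lin _ _ _).trans (by omega)
  have e1 : ∀ j : ℕ, ((C (D : ℤ) * X - C ((p : ℤ) ^ (K + 1) * j)) ^ a : Polynomial ℤ).comp (C (p : ℤ) * X) =
      C ((p : ℤ) ^ a) * (C (D : ℤ) * X - C ((p : ℤ) ^ K * j)) ^ a := by
    intro j
    rw [Polynomial.pow_comp, Polynomial.sub_comp, Polynomial.mul_comp, Polynomial.C_comp, Polynomial.X_comp,
      Polynomial.C_comp, Polynomial.C_pow, ← mul_pow]
    congr 1
    have : (p : ℤ) ^ (K + 1) * j = p * ((p : ℤ) ^ K * j) := by ring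
    rw [this, Polynomial.C_mul (a := (p : ℤ))]
    ring
  have e2 : ∀ j : ℕ, ((C (D : ℤ) * X - C ((p : ℤ) ^ (K + 1) * j)) ^ a : Polynomial ℤ).comp (C (-(p : ℤ)) * X) =
      C ((-1) ^ a * (p : ℤ) ^ a) * (C (D : ℤ) * X - C (-(p : ℤ) ^ K * j)) ^ a := by
    intro j
    rw [← mul_pow, Polynomial.pow_comp, Polynomial.sub_comp, Polynomial.mul_comp, Polynomial.C_comp, Polynomial.X_comp,
      Polynomial.C_comp, Polynomial.C_pow, ← mul_pow]
    congr 1
    have e3 : (p : ℤ) ^ (K + 1) * j = (-1 * p) * (-(p : ℤ) ^ K * j) := by ring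
    have e4 : (-(p : ℤ)) = -1 * p := by ring
    rw [e3, e4, Polynomial.C_mul (a := (-1 * (p : ℤ)))]
    ring
  have hterm : ∀ b ∈ Finset.range D, jacobiSym (b : ℤ) D •
      (pr (PhiOfT p a s I) ((C (D : ℤ) * X - C ((p : ℤ) ^ (K + 1) * b)) ^ a) ((p : ℤ) ^ (K + 1) * b) D -
        pr (PhiOfT p a s I) ((C (D : ℤ) * X - C ((p : ℤ) ^ (K + 1) * b)) ^ a) 1 0) =
      (p : ℂ) ^ a * ((jacobiSym (b : ℤ) D : ℂ) * f ((p : ℤ) ^ K * b)) +
        (s : ℂ) * (p : ℂ) ^ a * ((jacobiSym (b : ℤ) D : ℂ) * f (-(p : ℤ) ^ K * b)) := by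
    intro b _
    have g1 : pr I ((C (D : ℤ) * X - C ((p : ℤ) ^ K * b)) ^ a) ((p : ℤ) ^ (K + 1) * b) (p * D) =
        f ((p : ℤ) ^ K * b) := by
      have := homog_pr h _ (hdeg ((p : ℤ) ^ K * b)) p ((p : ℤ) ^ K * b) D (ne_p hp) (Or.inr hD0)
      rw [hf]
      simp only
      rw [← this]
      congr 1
      ring
    have g2 : pr I ((C (D : ℤ) * X - C (-(p : ℤ) ^ K * b)) ^ a) (-((p : ℤ) ^ (K + 1) * b)) (p * D) =
        f (-(p : ℤ) ^ K * b) := by
      have := homog_pr h _ (hdeg (-(p : ℤ) ^ K * b)) p (-(p : ℤ) ^ K * b) D (ne_p hp) (Or.inr hD0)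
      rw [hf]
      simp only
      rw [← this]
      congr 1
      ring
    have g3 : s * (-1 : ℤ) ^ a * ((-1) ^ a * (p : ℤ) ^ a) = s * (p : ℤ) ^ a := by
      have : (-1 : ℤ) ^ a * (-1) ^ a = 1 := by
        rw [← mul_pow]
        norm_num
      linear_combination (s * (p : ℤ) ^ a) * this
    rw [pr_phi, pr_phi, e1, e2, pr_C_mul, pr_C_mul]
    simp only [Pi.smul_apply, smul_smul, mul_zero]
    rw [g1, g2, g3, inf_pr h _ (hdeg _), inf_pr2 h _ (hdeg _)]
    simp only [zsmul_eq_mul]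
    push_cast
    ring
  rw [eW, Finset.sum_congr rfl hterm, Finset.sum_add_distrib, ← Finset.mul_sum, ← Finset.mul_sum, hs1, hs2]
  ring

end

theorem hTrT : StTrT := by
  intro p a ν D I hp hD hpD h h0
  have hD1 : D ≠ 0 := by
    rintro rfl
    simp at hD
  have hD0 : (D : ℤ) ≠ 0 := by exact_mod_cast hD1
  have hs : jacobiSym (-1) D * jacobiSym (-1) D = 1 := by
    have h1 : jacobiSym (-1) D ^ 2 = 1 := jacobiSym.sq_one (by simp)
    rwa [pow_two] at h1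
  have hc : jacobiSym p D ^ 2 = 1 := jacobiSym.sq_one (by simpa using hpD)
  refine ⟨?_, p_eqv hp h _, p_tt hp h _, p_ss hp h _, ?_, p_st h _ hs, ?_⟩
  · intro i hi k x y hk hxy
    simp only [cp, PhiOfT]
    have h1 := h.hom i hi k x (p * y) hk (ne_vec hp hxy)
    have h2 := h.hom i hi k (-x) (p * y) hk (ne_vec hp (by simpa using hxy))
    simp only [cp] at h1 h2
    have a1 : (p : ℤ) * (k * y) = k * (p * y) := by ring
    have a2 : -(k * x) = k * -x := by ring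
    rw [a1, a2, h1, h2]
  · have h1 := p_fr hp h (jacobiSym (-1) D)
    rw [pow_add, hc, mul_one] at h1
    exact h1
  · intro M hM ls hls
    obtain ⟨c, hc⟩ := words hp h (jacobiSym (-1) D) M hM ls hls
    have hpr : ∀ (P : Polynomial ℤ), P.natDegree ≤ 2 * a → ∀ u v : ℤ, (u ≠ 0 ∨ v ≠ 0) →
        pr (WTw a ((p : ℤ) ^ M) ls (PhiOfT p a (jacobiSym (-1) D) I)) P u v =
          c * pr (PhiOfT p a (jacobiSym (-1) D) I) P u v := by
      intro P hP u v huv
      rw [pr_eq_sum _ P (2 * a + 1) (by omega), pr_eq_sum _ P (2 * a + 1) (by omega)]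
      simp only [Finset.sum_apply, Pi.smul_apply, cp, Finset.mul_sum]
      refine Finset.sum_congr rfl fun k hk => ?_
      rw [Finset.mem_range] at hk
      rw [hc k (by omega) u v huv, mul_smul_comm]
    have hdeg : ∀ v : ℤ, ((C (D : ℤ) * X - C v) ^ a : Polynomial ℤ).natDegree ≤ 2 * a :=
      fun v => (deg_lin _ _ _).trans (by omega)
    have h2 : eW a D ((p : ℤ) ^ M) (WTw a ((p : ℤ) ^ M) ls (PhiOfT p a (jacobiSym (-1) D) I)) =
        c * eW a D ((p : ℤ) ^ M) (PhiOfT p a (jacobiSym (-1) D) I) := by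
      rw [eW, eW, Finset.mul_sum]
      refine Finset.sum_congr rfl fun b _ => ?_
      rw [hpr _ (hdeg _) _ _ (Or.inr hD0), hpr _ (hdeg _) 1 0 (Or.inl one_ne_zero), ← mul_sub, mul_smul_comm]
    rw [h2, eW0 hp h _ D hD1 hpD h0 M hM, mul_zero]

end Pool.Agent.Helper87.TG
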